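import Pool.Agent.L7h95.CD.Stm

set_option autoImplicit false

/-!
# Project CD, part UPP: the embedding given by a snake and a rule
-/

namespace Pool.Agent.L7h93.CD

open Finset Function
open Pool.Agent.L7h95.CD

section

variable {n : ℕ}

theorem single_inj {a b : Fin n} (h : (Pi.single a 1 : Fin n → ZMod 2) = Pi.single b 1) : a = b := by
  by_contra hab
  have h1 := congrFun h a
  rw [Pi.single_eq_same, Pi.single_eq_of_ne hab] at h1
  exact one_ne_zero h1

/-- the cube neighbours of `x` -/
def Nb (x : Fin n → ZMod 2) : Finset (Fin n → ZMod 2) :=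
  univ.image fun c => x + Pi.single c 1

theorem mem_Nb {x y : Fin n → ZMod 2} : y ∈ Nb x ↔ ∃ c, y = x + Pi.single c 1 := by
  unfold Nb
  simp only [mem_image, mem_univ, true_and]
  constructor
  · rintro ⟨c, hc⟩; exact ⟨c, hc.symm⟩
  · rintro ⟨c, hc⟩; exact ⟨c, hc.symm⟩

theorem card_Nb (x : Fin n → ZMod 2) : (Nb x).card = n := by
  unfold Nb
  rw [card_image_of_injective, card_univ, Fintype.card_fin]
  intro a b hab
  exact single_inj (add_left_cancel hab)

open Classical in
/-- the forbidden neighbours -/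
noncomputable def FF (k : ℕ) (X : ℕ → Fin n → ZMod 2) (G : ℕ → Prop) (i : ℕ) :
    Finset (Fin n → ZMod 2) :=
  (((if i + 1 < k then {X (i + 1)} else ∅) ∪ (if 1 ≤ i then {X (i - 1)} else ∅)) ∪
    (if 2 ≤ i ∧ ¬ G i then {X (i - 2) + X (i - 1) + X i} else ∅)) ∪
    (if i + 2 < k ∧ G (i + 2) then {X i + X (i + 1) + X (i + 2)} else ∅)

theorem card_if {α : Type} [DecidableEq α] (p : Prop) [Decidable p] (x : α) :
    (if p then ({x} : Finset α) else ∅).card = if p then 1 else 0 := by
  split_ifs <;> simp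

open Classical in
theorem card_FF (k : ℕ) (X : ℕ → Fin n → ZMod 2) (G : ℕ → Prop) (i : ℕ) :
    (FF k X G i).card ≤ (if i + 1 < k then 1 else 0) + (if 1 ≤ i then 1 else 0) +
      (if 2 ≤ i ∧ ¬ G i then 1 else 0) + (if i + 2 < k ∧ G (i + 2) then 1 else 0) := by
  unfold FF
  refine (card_union_le _ _).trans ?_
  rw [card_if]
  refine Nat.add_le_add_right ?_ _
  refine (card_union_le _ _).trans ?_
  rw [card_if]
  refine Nat.add_le_add_right ?_ _
  refine (card_union_le _ _).trans ?_
  rw [card_if, card_if]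

theorem mem_FF1 {k : ℕ} {X : ℕ → Fin n → ZMod 2} {G : ℕ → Prop} {i : ℕ} (h : i + 1 < k) :
    X (i + 1) ∈ FF k X G i := by
  unfold FF
  rw [mem_union, mem_union, mem_union]
  left; left; left
  rw [if_pos h]; exact mem_singleton_self _

theorem mem_FF2 {k : ℕ} {X : ℕ → Fin n → ZMod 2} {G : ℕ → Prop} {i : ℕ} :
    X i ∈ FF k X G (i + 1) := by
  unfold FF
  rw [mem_union, mem_union, mem_union]
  left; left; right
  rw [if_pos (by omega)]
  simp

theorem mem_FF3 {k : ℕ} {X : ℕ → Fin n → ZMod 2} {G : ℕ → Prop} {i : ℕ} (h : ¬ G (i + 2)) :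
    X i + X (i + 1) + X (i + 2) ∈ FF k X G (i + 2) := by
  unfold FF
  rw [mem_union, mem_union]
  left; right
  rw [if_pos ⟨by omega, h⟩, mem_singleton]
  rfl

theorem mem_FF4 {k : ℕ} {X : ℕ → Fin n → ZMod 2} {G : ℕ → Prop} {i : ℕ} (h : i + 2 < k)
    (h' : G (i + 2)) : X i + X (i + 1) + X (i + 2) ∈ FF k X G i := by
  unfold FF
  rw [mem_union]
  right
  rw [if_pos ⟨h, h'⟩]; exact mem_singleton_self _

theorem sum_single (x : Fin n → ZMod 2) (c : Fin n) :
    ∑ i, (x + Pi.single c 1 : Fin n → ZMod 2) i = ∑ i, x i + 1 := by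
  simp only [Pi.add_apply]
  rw [sum_add_distrib]
  congr 1
  rw [Finset.sum_pi_single' c (1 : ZMod 2) univ]
  simp

theorem two_zero (x : Fin n → ZMod 2) : x + x = 0 := by
  funext i
  exact CharTwo.add_self_eq_zero _

theorem common {x x1 x2 y : Fin n → ZMod 2} {a b c d : Fin n} (hne : c ≠ d)
    (h1 : x1 = x + Pi.single c 1) (h2 : x2 = x1 + Pi.single d 1)
    (h3 : y = x + Pi.single a 1) (h4 : y = x2 + Pi.single b 1) :
    y = x1 ∨ y = x + x1 + x2 := by
  have h5 : (Pi.single a 1 : Fin n → ZMod 2) = Pi.single c 1 + Pi.single d 1 + Pi.single b 1 := by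
    have h6 : x + Pi.single a 1 = x + (Pi.single c 1 + Pi.single d 1 + Pi.single b 1) := by
      rw [← h3, h4, h2, h1]; abel
    exact add_left_cancel h6
  by_cases hac : a = c
  · left
    rw [h3, h1, hac]
  by_cases had : a = d
  · right
    have e : x + (x + Pi.single c 1) + (x + Pi.single c 1 + Pi.single d 1)
        = (x + x) + (Pi.single c 1 + Pi.single c 1 : Fin n → ZMod 2) + (x + Pi.single d 1) := by abel
    rw [h3, h2, h1, had, e, two_zero, two_zero, zero_add, zero_add]
  exfalso
  have hab : a = b := by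
    by_contra hab
    have h6 := congrFun h5 a
    rw [Pi.single_eq_same, Pi.add_apply, Pi.add_apply, Pi.single_eq_of_ne hac,
      Pi.single_eq_of_ne had, Pi.single_eq_of_ne hab] at h6
    simp at h6
  rw [hab] at h5
  have h6 := congrFun h5 c
  rw [Pi.add_apply, Pi.add_apply, Pi.single_eq_same, Pi.single_eq_of_ne hne] at h6
  have h7 : (1 : ZMod 2) = 0 := by
    have h8 : (0 : ZMod 2) + (Pi.single b 1 : Fin n → ZMod 2) c =
        1 + (Pi.single b 1 : Fin n → ZMod 2) c := by
      rw [zero_add]
      calc (Pi.single b 1 : Fin n → ZMod 2) c = _ := h6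
        _ = _ := by ring
    exact (add_right_cancel h8).symm
  exact one_ne_zero h7

end

theorem s_UPP (hNB : S_NB) : S_UPP := by
  intro n k a X G hX hdeg
  have hnb : ∀ x y : Fin n → ZMod 2, y ∈ Nb x ↔ hammingDist x y = 1 := by
    intro x y
    rw [mem_Nb, hNB (Fin n) x y]
  -- the leaves
  have hg : ∀ i : Fin k, ∃ g : Fin (a i) → Fin n → ZMod 2, Injective g ∧
      ∀ l, g l ∈ Nb (X i.1) ∧ g l ∉ FF k X G i.1 := by
    intro i
    have hc : a i ≤ (Nb (X i.1) \ FF k X G i.1).card := by
      have h1 := Finset.le_card_sdiff (FF k X G i.1) (Nb (X i.1))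
      have h2 := card_FF k X G i.1
      rw [card_Nb] at h1
      obtain ⟨d1, d2, d3⟩ := hdeg i
      unfold dg at d1 d2 d3
      have hi := i.2
      have e1 : (if i.1 = 0 then 0 else 1) = (if 1 ≤ i.1 then 1 else 0) := by
        split_ifs <;> omega
      have e2 : (if i.1 + 1 = k then 0 else 1) = (if i.1 + 1 < k then 1 else 0) := by
        split_ifs <;> omega
      rw [e1, e2] at d1 d2 d3
      by_cases q1 : (2 ≤ i.1 ∧ ¬ G i.1)
      · by_cases q2 : (i.1 + 2 < k ∧ G (i.1 + 2))
        · have := d1 q1 q2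
          rw [if_pos q1, if_pos q2] at h2
          omega
        · have := d2 (Or.inl q1)
          rw [if_pos q1, if_neg q2] at h2
          omega
      · by_cases q2 : (i.1 + 2 < k ∧ G (i.1 + 2))
        · have := d2 (Or.inr q2)
          rw [if_neg q1, if_pos q2] at h2
          omega
        · rw [if_neg q1, if_neg q2] at h2
          omega
    have hE : Nonempty (Fin (a i) ↪ (Nb (X i.1) \ FF k X G i.1 : Finset (Fin n → ZMod 2))) := by
      apply Function.Embedding.nonempty_of_card_le
      rw [Fintype.card_fin, Fintype.card_coe]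
      exact hc
    obtain ⟨e⟩ := hE
    refine ⟨fun l => (e l).1, fun l l' h => e.injective (Subtype.ext h), fun l => ?_⟩
    have := (e l).2
    rw [mem_sdiff] at this
    exact this
  choose g hg1 hg2 using hg
  have hd1 : ∀ (i : Fin k) (l : Fin (a i)), hammingDist (X i.1) (g i l) = 1 := fun i l =>
    (hnb _ _).1 (hg2 i l).1
  have hXinj : ∀ i j : Fin k, i.1 < j.1 → X i.1 ≠ X j.1 := by
    intro i j hij h
    have h1 := hX.far i.1 j.1 hij j.2
    rw [h, hammingDist_self] at h1
    omega
  have hXg : ∀ (j i : Fin k) (l : Fin (a i)), X j.1 ≠ g i l := by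
    intro j i l h
    have h1 := hd1 i l
    rw [← h] at h1
    rcases lt_trichotomy i.1 j.1 with hij | hij | hij
    · have h2 := hX.far i.1 j.1 hij j.2
      have h3 : j.1 = i.1 + 1 := by omega
      apply (hg2 i l).2
      rw [← h, h3]
      exact mem_FF1 (by have := j.2; omega)
    · rw [hij, hammingDist_self] at h1
      omega
    · have h2 := hX.far j.1 i.1 hij i.2
      rw [hammingDist_comm] at h2
      have h3 : i.1 = j.1 + 1 := by omega
      apply (hg2 i l).2
      rw [← h, h3]
      exact mem_FF2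
  have hgg : ∀ (i j : Fin k) (l : Fin (a i)) (l' : Fin (a j)), i.1 < j.1 → g i l ≠ g j l' := by
    intro i j l l' hij h
    have h1 := hd1 i l
    have h2 := hd1 j l'
    rw [← h] at h2
    have h3 := hX.far i.1 j.1 hij j.2
    have h4 := hammingDist_triangle (X i.1) (g i l) (X j.1)
    rw [hammingDist_comm (g i l) (X j.1)] at h4
    have h5 : j.1 = i.1 + 1 ∨ j.1 = i.1 + 2 := by omega
    obtain ⟨ca, hca⟩ := mem_Nb.1 ((hnb _ _).2 h1)
    obtain ⟨cb, hcb⟩ := mem_Nb.1 ((hnb _ _).2 h2)
    have hk := j.2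
    rcases h5 with h5 | h5
    · obtain ⟨cc, hcc⟩ := mem_Nb.1 ((hnb _ _).2 (hX.step i.1 (by omega)))
      rw [h5] at hcb
      have s1 : ∑ c, g i l c = ∑ c, X i.1 c + 1 := by
        rw [hca]; exact sum_single _ _
      have s2 : ∑ c, g i l c = ∑ c, X (i.1 + 1) c + 1 := by
        rw [hcb]; exact sum_single _ _
      have s3 : ∑ c, X (i.1 + 1) c = ∑ c, X i.1 c + 1 := by
        rw [hcc]; exact sum_single _ _
      rw [s1, s3] at s2
      have s4 := add_right_cancel s2
      have s5 : (1 : ZMod 2) = 0 := by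
        have : (∑ c, X i.1 c) + 0 = (∑ c, X i.1 c) + 1 := by rw [add_zero]; exact s4
        exact (add_left_cancel this).symm
      exact one_ne_zero s5
    · obtain ⟨cc, hcc⟩ := mem_Nb.1 ((hnb _ _).2 (hX.step i.1 (by omega)))
      obtain ⟨cd, hcd⟩ := mem_Nb.1 ((hnb _ _).2 (hX.step (i.1 + 1) (by omega)))
      rw [h5] at hcb
      have hne : cc ≠ cd := by
        intro hcd'
        have h6 := hX.far i.1 (i.1 + 2) (by omega) (by omega)
        have h7 : X (i.1 + 2) = X i.1 := by
          rw [show i.1 + 2 = i.1 + 1 + 1 from rfl, hcd, hcc, hcd', add_assoc, two_zero, add_zero]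
        rw [h7, hammingDist_self] at h6
        omega
      rcases common hne hcc hcd hca hcb with h6 | h6
      · apply (hg2 i l).2
        rw [h6]
        exact mem_FF1 (by omega)
      · by_cases hG : G (i.1 + 2)
        · apply (hg2 i l).2
          rw [h6]
          exact mem_FF4 (by omega) hG
        · apply (hg2 j l').2
          rw [← h, h6, h5]
          exact mem_FF3 hG
  refine ⟨Sum.elim (fun i => X i.1) (fun l => g l.1 l.2), ?_, ?_⟩
  · rintro (i | ⟨i, l⟩) (j | ⟨j, l'⟩) h
    · simp only [Sum.elim_inl] at h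
      rcases lt_trichotomy i.1 j.1 with hij | hij | hij
      · exact absurd h (hXinj i j hij)
      · rw [Fin.ext hij]
      · exact absurd h.symm (hXinj j i hij)
    · simp only [Sum.elim_inl, Sum.elim_inr] at h
      exact absurd h (hXg i j l')
    · simp only [Sum.elim_inl, Sum.elim_inr] at h
      exact absurd h.symm (hXg j i l)
    · simp only [Sum.elim_inr] at h
      rcases lt_trichotomy i.1 j.1 with hij | hij | hij
      · exact absurd h (hgg i j l l' hij)
      · have hij' : i = j := Fin.ext hij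
        subst hij'
        rw [hg1 i h]
      · exact absurd h.symm (hgg j i l' l hij)
  · rintro (i | ⟨i, l⟩) (j | ⟨j, l'⟩) h
    · have h' : i.1 + 1 = j.1 ∨ j.1 + 1 = i.1 := h
      show hammingDist (X i.1) (X j.1) = 1
      rcases h' with h' | h'
      · rw [← h']
        exact hX.step i.1 (by have := j.2; omega)
      · rw [← h', hammingDist_comm]
        exact hX.step j.1 (by have := i.2; omega)
    · have h' : j = i := h
      subst h'
      exact hd1 j l'
    · have h' : i = j := h
      subst h'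
      show hammingDist (g i l) (X i.1) = 1
      rw [hammingDist_comm]
      exact hd1 i l
    · exact h.elim

end Pool.Agent.L7h93.CD
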